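import Mathlib

/-! Hyperbolic linear maps: definition. -/

set_option autoImplicit false

namespace Pool.Agent.R775.HL

/-- no complex eigenvalue has modulus one -/
def HypLin {E : Type*} [AddCommGroup E] [Module ℝ E] [Module.Finite ℝ E] [Module.Free ℝ E]
    (L : E →ₗ[ℝ] E) : Prop :=
  ∀ μ : ℂ, (L.charpoly.map (algebraMap ℝ ℂ)).IsRoot μ → ‖μ‖ ≠ 1

end Pool.Agent.R775.HL
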